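import Pool.Agent.E8helper19.PM.Stm

/-!
# Project PM: the energy of a needle sequence is unbounded in every cone with vertex `x` (S_FAT)
-/

set_option autoImplicit false
open MeasureTheory Filter Topology Set
open scoped ContDiff ENNReal Real InnerProductSpace

namespace Pool.Agent.E8helper7.PM

open Pool.Agent.E8helper19.PM

lemma gr_sub {f g : E → ℂ} {y : E} (hf : DifferentiableAt ℝ f y) (hg : DifferentiableAt ℝ g y) :
    gr (fun z => f z - g z) y = gr f y - gr g y := by
  unfold gr
  rw [← WithLp.toLp_sub]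
  congr 1
  funext j
  show pd j (fun z => f z - g z) y = pd j f y - pd j g y
  unfold pd
  rw [fderiv_fun_sub hf hg]
  rfl

lemma gr_shift (G : E → ℂ) (x y : E) : gr (fun z => G (z - x)) y = gr G (y - x) := by
  unfold gr
  congr 1
  funext j
  unfold pd
  rw [fderiv_comp_sub]

lemma gr_cont {f : E → ℂ} {U : Set E} (hU : IsOpen U) (hf : ContDiffOn ℝ ∞ f U) :
    ContinuousOn (gr f) U := by
  have h1 := hf.continuousOn_fderiv_of_isOpen hU (by norm_num)
  unfold gr
  refine (PiLp.continuous_toLp 2 _).comp_continuousOn (continuousOn_pi.2 fun j => ?_)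
  exact h1.clm_apply continuousOn_const

lemma den_cont {f : E → ℂ} {U : Set E} (hU : IsOpen U) (hf : ContDiffOn ℝ ∞ f U) :
    ContinuousOn (fun y => ‖f y‖ ^ 2 + ‖gr f y‖ ^ 2) U :=
  (hf.continuousOn.norm.pow 2).add ((gr_cont hU hf).norm.pow 2)

lemma cone_open (z a : E) (r α : ℝ) : IsOpen (Cone z a r α) := by
  unfold Cone
  have h1 : IsOpen {y : E | ‖y - z‖ < r} := isOpen_lt (by fun_prop) (by fun_prop)
  have h2 : IsOpen {y : E | ‖y - z‖ * Real.cos (π * α / 2) < ⟪y - z, a⟫_ℝ} :=
    isOpen_lt (by fun_prop) (by fun_prop)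
  exact h1.inter h2

lemma cone_bdd (z a : E) (r α : ℝ) : Bornology.IsBounded (Cone z a r α) := by
  refine Metric.isBounded_ball.subset (s := Cone z a r α) (t := Metric.ball z r) ?_
  intro y hy
  rw [Metric.mem_ball, dist_eq_norm]
  exact hy.1

/-- **PM12** -/
theorem t_FAT (hN : S_NULL) : S_FAT := by
  intro k Ω G x σ v a r α C hΩ hG hσ hv ha hr hα hα1 hC hb
  obtain ⟨hSc, hS0⟩ := hN.2 Ω x σ hσ
  obtain ⟨S, hS⟩ : ∃ S, S = σ '' Icc 0 1 := ⟨_, rfl⟩
  have hxS : x ∈ S := by
    rw [hS, ← hσ.fin]
    exact ⟨1, by simp, rfl⟩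
  rw [← hS] at hSc hS0
  obtain ⟨T, hT⟩ : ∃ T, T = Cone x a r α := ⟨_, rfl⟩
  have hTo : IsOpen T := by rw [hT]; exact cone_open _ _ _ _
  have hTb : Bornology.IsBounded T := by rw [hT]; exact cone_bdd _ _ _ _
  rw [← hT] at hC hb
  obtain ⟨U, hU⟩ : ∃ U, U = T \ S := ⟨_, rfl⟩
  have hUo : IsOpen U := by rw [hU]; exact hTo.sdiff hSc.isClosed
  have hUx : x ∉ U := by rw [hU]; exact fun h => h.2 hxS
  have hUT : U ⊆ T := by rw [hU]; exact sdiff_subset
  have hUΩ : U ⊆ Ω \ σ '' Icc 0 1 := by
    rw [← hS, hU]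
    exact sdiff_subset_sdiff_left hC
  -- the singular solution with the pole `x`
  have hGx : ContDiffOn ℝ ∞ (fun y => G (y - x)) U := by
    refine hG.smooth.comp (by fun_prop) ?_
    intro y hy
    simp only [mem_compl_iff, mem_singleton_iff, sub_eq_zero]
    rintro rfl
    exact hUx hy
  have hvU : ∀ n, ContDiffOn ℝ ∞ (v n) U := fun n =>
    (hv.sol n).smooth.mono (hUT.trans hC)
  -- the bound on compact sets
  have key : ∀ K, IsCompact K → K ⊆ U → ∫ y in K, ‖gr G (y - x)‖ ^ 2 ≤ 2 * C := by
    intro K hK hKU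
    have h1 := hv.conv K hK (hKU.trans hUΩ)
    have h2 : ∀ n, ∫ y in K, ‖gr G (y - x)‖ ^ 2 ≤
        2 * H1 K (fun y => v n y - G (y - x)) + 2 * C := by
      intro n
      have hd : ContDiffOn ℝ ∞ (fun y => v n y - G (y - x)) U := (hvU n).sub hGx
      have i1 : IntegrableOn (fun y => ‖v n y - G (y - x)‖ ^ 2 +
          ‖gr (fun y => v n y - G (y - x)) y‖ ^ 2) K :=
        ((den_cont hUo hd).mono hKU).integrableOn_compact hK
      have i2 : IntegrableOn (fun y => ‖v n y‖ ^ 2 + ‖gr (v n) y‖ ^ 2) T :=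
        (hv.sol n).fin.mono_set hC
      have i3 : IntegrableOn (fun y => ‖gr G (y - x)‖ ^ 2) K := by
        have h3 := ((gr_cont hUo hGx).norm.pow 2).mono hKU
        have h4 := h3.integrableOn_compact (μ := volume) hK
        refine h4.congr_fun (fun y _ => ?_) hK.measurableSet
        simp only [Pi.pow_apply, gr_shift]
      have i4 : IntegrableOn (fun y => ‖v n y‖ ^ 2 + ‖gr (v n) y‖ ^ 2) K :=
        i2.mono_set (hKU.trans hUT)
      have h5 : H1 K (v n) ≤ C := by
        refine le_trans ?_ (hb n)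
        unfold H1
        exact setIntegral_mono_set i2 (Eventually.of_forall fun y => by positivity)
          (Eventually.of_forall (hKU.trans hUT))
      have h6 : ∫ y in K, ‖gr G (y - x)‖ ^ 2 ≤
          ∫ y in K, (2 * (‖v n y - G (y - x)‖ ^ 2 + ‖gr (fun y => v n y - G (y - x)) y‖ ^ 2) +
            2 * (‖v n y‖ ^ 2 + ‖gr (v n) y‖ ^ 2)) := by
        refine setIntegral_mono_on i3 ((i1.const_mul 2).add (i4.const_mul 2)) hK.measurableSet ?_
        intro y hy
        have hyU := hKU hy
        have hn : U ∈ 𝓝 y := hUo.mem_nhds hyU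
        have d1 : DifferentiableAt ℝ (v n) y := ((hvU n).contDiffAt hn).differentiableAt (by simp)
        have d2 : DifferentiableAt ℝ (fun y => G (y - x)) y :=
          (hGx.contDiffAt hn).differentiableAt (by simp)
        have e : gr G (y - x) = gr (v n) y - gr (fun y => v n y - G (y - x)) y := by
          rw [gr_sub d1 d2, gr_shift]
          abel
        have h7 : ‖gr G (y - x)‖ ≤ ‖gr (v n) y‖ + ‖gr (fun y => v n y - G (y - x)) y‖ := by
          rw [e]
          exact norm_sub_le _ _
        have h8 := norm_nonneg (gr G (y - x))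
        have h9 := sq_nonneg (‖gr (v n) y‖ - ‖gr (fun y => v n y - G (y - x)) y‖)
        have h10 := sq_nonneg ‖v n y - G (y - x)‖
        have h11 := sq_nonneg ‖v n y‖
        nlinarith
      rw [integral_add (i1.const_mul 2) (i4.const_mul 2), integral_const_mul,
        integral_const_mul] at h6
      unfold H1 at h5 ⊢
      linarith
    have h3 : Tendsto (fun n => 2 * H1 K (fun y => v n y - G (y - x)) + 2 * C) atTop
        (𝓝 (2 * 0 + 2 * C)) := (h1.const_mul 2).add_const _
    have h4 := ge_of_tendsto' h3 h2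
    linarith
  -- integrability on `U`
  obtain ⟨F, hFc, hFU, hFu, hFm⟩ := hUo.exists_iUnion_isClosed
  have hFk : ∀ n, IsCompact (F n) := fun n =>
    Metric.isCompact_of_isClosed_isBounded (hFc n) ((hTb.subset hUT).subset (hFU n))
  have hcov : AECover (volume.restrict U) atTop F := by
    refine ⟨?_, fun n => (hFc n).measurableSet⟩
    refine (ae_restrict_iff' hUo.measurableSet).2 (Eventually.of_forall fun y hy => ?_)
    rw [← hFu, mem_iUnion] at hy
    obtain ⟨m, hm⟩ := hy
    exact eventually_atTop.2 ⟨m, fun n hn => hFm hn hm⟩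
  have hIU : IntegrableOn (fun y => ‖gr G (y - x)‖ ^ 2) U := by
    refine hcov.integrable_of_integral_norm_bounded (2 * C) ?_ ?_
    · intro n
      have h3 := ((gr_cont hUo hGx).norm.pow 2).mono (hFU n)
      have h4 := h3.integrableOn_compact (μ := volume) (hFk n)
      have h5 : IntegrableOn (fun y => ‖gr G (y - x)‖ ^ 2) (F n) := by
        refine h4.congr_fun (fun y _ => ?_) (hFk n).measurableSet
        simp only [Pi.pow_apply, gr_shift]
      exact h5.mono_measure Measure.restrict_le_self
    · refine Eventually.of_forall fun n => ?_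
      rw [Measure.restrict_restrict (hFc n).measurableSet, inter_eq_left.2 (hFU n)]
      refine le_trans (le_of_eq ?_) (key (F n) (hFk n) (hFU n))
      refine integral_congr_ae (Eventually.of_forall fun y => ?_)
      simp only [norm_pow, norm_norm]
  -- integrability on the cone
  have hIT : IntegrableOn (fun y => ‖gr G (y - x)‖ ^ 2) T := by
    refine (integrableOn_congr_set_ae (s := T) (t := U) ?_).2 hIU
    rw [hU]
    exact (sdiff_null_ae_eq_self hS0).symm
  apply hG.cone a r α ha hr hα hα1
  have hmp : MeasurePreserving (fun y : E => y - x) volume volume := measurePreserving_sub_right _ x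
  have hme : MeasurableEmbedding (fun y : E => y - x) :=
    (MeasurableEquiv.subRight x).measurableEmbedding
  rw [← hmp.integrableOn_comp_preimage hme]
  have e : (fun y : E => y - x) ⁻¹' (Cone 0 a r α) = T := by
    rw [hT]
    ext y
    simp only [Cone, mem_preimage, mem_ofPred_eq, sub_zero]
  rw [e]
  exact hIT

end Pool.Agent.E8helper7.PM
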